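import Mathlib

set_option autoImplicit false

/-!
# Joint symmetry on Fishburn permutations: the functional equation

From the functional equation of a family of polynomials to the symmetry (kernel method).
-/

namespace Pool.Agent.U747.FS

open Finset

section sums

variable {P : Type} [CommRing P]

/-- the sum of `X ^ n * f n` -/
noncomputable def zs (f : ℕ → PowerSeries P) : PowerSeries P :=
  PowerSeries.mk fun k => ∑ n ∈ range (k + 1), PowerSeries.coeff (k - n) (f n)

lemma zs_spec (f : ℕ → PowerSeries P) (N : ℕ) :
    (PowerSeries.X : PowerSeries P) ^ N ∣ zs f - ∑ n ∈ range N, PowerSeries.X ^ n * f n := by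
  rw [PowerSeries.X_pow_dvd_iff]
  intro m hm
  rw [map_sub, map_sum, sub_eq_zero, zs, PowerSeries.coeff_mk]
  simp only [PowerSeries.coeff_X_pow_mul']
  rw [← Finset.sum_filter]
  congr 1
  ext n
  simp only [mem_range, mem_filter]
  omega

lemma zs_unique (f : ℕ → PowerSeries P) (s : PowerSeries P)
    (h : ∀ N, (PowerSeries.X : PowerSeries P) ^ N ∣ s - ∑ n ∈ range N, PowerSeries.X ^ n * f n) :
    s = zs f := by
  ext m
  have h1 := h (m + 1)
  have h2 := zs_spec f (m + 1)
  have h3 := dvd_sub h1 h2
  rw [PowerSeries.X_pow_dvd_iff] at h3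
  have h4 := h3 m (Nat.lt_succ_self m)
  have h5 : s - ∑ n ∈ range (m + 1), PowerSeries.X ^ n * f n -
    (zs f - ∑ n ∈ range (m + 1), PowerSeries.X ^ n * f n) = s - zs f := by ring
  rw [h5, map_sub, sub_eq_zero] at h4
  exact h4

lemma zs_add (f g : ℕ → PowerSeries P) : zs (fun n => f n + g n) = zs f + zs g := by
  symm
  apply zs_unique
  intro N
  have h := dvd_add (zs_spec f N) (zs_spec g N)
  convert h using 1
  simp only [mul_add, sum_add_distrib]
  ring

lemma zs_mul (a : PowerSeries P) (f : ℕ → PowerSeries P) : zs (fun n => a * f n) = a * zs f := by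
  symm
  apply zs_unique
  intro N
  have h := dvd_mul_of_dvd_right (zs_spec f N) a
  convert h using 1
  rw [mul_sub, mul_sum]
  congr 1
  apply sum_congr rfl
  intro n _
  ring

lemma zs_sub (f g : ℕ → PowerSeries P) : zs (fun n => f n - g n) = zs f - zs g := by
  have h : (fun n => f n - g n) = fun n => f n + (-1) * g n := by
    funext n
    ring
  rw [h, zs_add, zs_mul]
  ring

lemma zs_succ (f : ℕ → PowerSeries P) :
    zs f = f 0 + PowerSeries.X * zs (fun n => f (n + 1)) := by
  symm
  apply zs_unique
  intro N
  rcases N with _ | N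
  · simp
  · have h := mul_dvd_mul_left (PowerSeries.X : PowerSeries P) (zs_spec (fun n => f (n + 1)) N)
    rw [← pow_succ'] at h
    convert h using 1
    rw [sum_range_succ', mul_sub, mul_sum]
    have h1 : ∀ n, (PowerSeries.X : PowerSeries P) ^ (n + 1) * f (n + 1) =
        PowerSeries.X * (PowerSeries.X ^ n * f (n + 1)) := fun n => by ring
    simp only [h1]
    ring

lemma zs_shift (n : ℕ) (f : ℕ → PowerSeries P) (h : ∀ m < n, f m = 0) :
    zs f = PowerSeries.X ^ n * zs (fun k => f (n + k)) := by
  induction n generalizing f with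
  | zero => simp
  | succ n ih =>
    rw [zs_succ, h 0 (Nat.succ_pos n), zero_add, ih (fun k => f (k + 1)) (fun m hm => h (m + 1) (by omega)),
      pow_succ', mul_assoc]
    congr 3
    funext k
    congr 1
    omega

lemma zs_const (f : ℕ → PowerSeries P) :
    PowerSeries.constantCoeff (zs f) = PowerSeries.constantCoeff (f 0) := by
  rw [zs_succ]
  simp

end sums

/-- The elimination. -/
lemma elim {A : Type} [CommRing A] [IsDomain A] (z a b q x y : A) (hx1 : x ≠ 1) (hy1 : y ≠ 1)
    (hz : z ≠ 0) (hy : y ≠ 0) (F : A → A → A) (hq : q = F 1 1)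
    (hker : x - y = z * y * (x - 1))
    (hF : ∀ s t : A, (s - t) * (F s t - s * t) =
      z * (s * t * (F s t - F t t + b * (F s 1 - F t 1)) +
        t * (F s s - F s t + a * (F 1 s - F 1 t)))) :
    (1 - z) * F 1 x = (1 - z - z * b) * (1 - z - z * a) * x * F 1 y + (1 - z) * x * (1 - x) +
      q * x * ((1 - z) - (1 - z - z * b) * (1 - z - z * a)) := by
  have h4 : ∀ t : A, t ≠ 1 → (1 - z * a) * F 1 t = (1 - z) * F t 1 + z * F t t - z * a * q := by
    intro t ht
    have e2 := hF t 1
    have e3 := hF 1 t
    rw [← hq] at e2 e3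
    have h : (t - 1) * ((1 - z * a) * F 1 t - ((1 - z) * F t 1 + z * F t t - z * a * q)) = 0 := by
      linear_combination (-1) * e3 - e2
    rcases mul_eq_zero.1 h with h | h
    · exact absurd (sub_eq_zero.1 h) ht
    · exact sub_eq_zero.1 h
  have hV : ∀ t : A, t ≠ 1 → F 1 t = t * ((1 - z - z * b) * F t 1 + (1 - t) + (z + z * b) * q) := by
    intro t ht
    have e3 := hF 1 t
    rw [← hq] at e3
    have e4 := h4 t ht
    linear_combination e3 + t * e4
  have hS : ∀ t : A, t ≠ 1 → z * F t t = (1 - z * a) * F 1 t - (1 - z) * F t 1 + z * a * q := by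
    intro t ht
    linear_combination (-1) * h4 t ht
  have hK : -x * F y y + F x x + b * x * (F x 1 - F y 1) + a * (F 1 x - F 1 y) + (x - 1) * x * y = 0 := by
    have e := hF x y
    have h : (z * y) * (-x * F y y + F x x + b * x * (F x 1 - F y 1) + a * (F 1 x - F 1 y) +
        (x - 1) * x * y) = 0 := by
      linear_combination (-1) * e + (F x y - x * y) * hker
    rcases mul_eq_zero.1 h with h | h
    · exact absurd h (mul_ne_zero hz hy)
    · exact h
  have hSx := hS x hx1
  have hSy := hS y hy1
  have hVx := hV x hx1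
  have hVy := hV y hy1
  have h7 : (x - 1) * ((1 - z) * ((1 - z - z * b) * F x 1 + (1 - x) + (z + z * b) * q) -
      ((1 - z - z * b) * (1 - z - z * a) * y * ((1 - z - z * b) * F y 1 + (1 - y) + (z + z * b) * q) +
        (1 - z) * (1 - x) + q * ((1 - z) - (1 - z - z * b) * (1 - z - z * a)))) = 0 := by
    linear_combination (1 - z - z * b) * z * hK - (1 - z - z * b) * hSx + (1 - z - z * b) * x * hSy -
      (1 - z - z * b) * hVx + (1 - z - z * b) * (x * (1 - z * a) + z * a) * hVy +
      (1 - z - z * b) * (x - ((1 - z - z * b) * F y 1 + (1 - y) + (z + z * b) * q)) * hker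
  have h8 := (mul_eq_zero.1 h7).resolve_left (sub_ne_zero.2 hx1)
  linear_combination x * h8 + (1 - z) * hVx - (1 - z - z * b) * (1 - z - z * a) * x * hVy

/-- The sums satisfy the functional equation. -/
lemma zs_FE {P : Type} [CommRing P] (a b : PowerSeries P)
    (Q : ℕ → PowerSeries P → PowerSeries P → PowerSeries P) (h0 : ∀ x y, Q 0 x y = x * y)
    (hS : ∀ n x y, (x - y) * Q (n + 1) x y =
      x * y * (Q n x y - Q n y y + b * (Q n x 1 - Q n y 1)) +
        y * (Q n x x - Q n x y + a * (Q n 1 x - Q n 1 y))) (s t : PowerSeries P) :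
    (s - t) * (zs (fun n => Q n s t) - s * t) =
      PowerSeries.X * (s * t * (zs (fun n => Q n s t) - zs (fun n => Q n t t) +
        b * (zs (fun n => Q n s 1) - zs (fun n => Q n t 1))) +
        t * (zs (fun n => Q n s s) - zs (fun n => Q n s t) +
          a * (zs (fun n => Q n 1 s) - zs (fun n => Q n 1 t)))) := by
  have h1 : zs (fun n => Q n s t) = s * t + PowerSeries.X * zs (fun n => Q (n + 1) s t) := by
    rw [zs_succ, h0]
  have h2 : (s - t) * zs (fun n => Q (n + 1) s t) =
      s * t * (zs (fun n => Q n s t) - zs (fun n => Q n t t) +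
        b * (zs (fun n => Q n s 1) - zs (fun n => Q n t 1))) +
        t * (zs (fun n => Q n s s) - zs (fun n => Q n s t) +
          a * (zs (fun n => Q n 1 s) - zs (fun n => Q n 1 t))) := by
    rw [← zs_mul]
    simp only [hS, zs_add, zs_mul, zs_sub]
  rw [← h2, h1]
  ring

/-- **The symmetry.** -/
theorem sym_of_FE (Q : ∀ (A : Type) [CommRing A], A → A → ℕ → A → A → A)
    (h0 : ∀ (A : Type) [CommRing A] (a b x y : A), Q A a b 0 x y = x * y)
    (hS : ∀ (A : Type) [CommRing A] (a b : A) (n : ℕ) (x y : A), (x - y) * Q A a b (n + 1) x y =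
      x * y * (Q A a b n x y - Q A a b n y y + b * (Q A a b n x 1 - Q A a b n y 1)) +
        y * (Q A a b n x x - Q A a b n x y + a * (Q A a b n 1 x - Q A a b n 1 y)))
    (hN : ∀ (A B : Type) [CommRing A] [CommRing B] (φ : A →+* B) (a b : A) (n : ℕ) (x y : A),
      φ (Q A a b n x y) = Q B (φ a) (φ b) n (φ x) (φ y))
    (R : Type) [CommRing R] [IsDomain R] (a b : R) (n : ℕ) : Q R a b n 1 1 = Q R b a n 1 1 := by
  classical
  -- the ring
  let P := Polynomial R
  let A := PowerSeries P
  let cc : A →+* P := PowerSeries.constantCoeff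
  let z : A := PowerSeries.X
  let x : A := PowerSeries.C Polynomial.X
  let a' : A := PowerSeries.C (Polynomial.C a)
  let b' : A := PowerSeries.C (Polynomial.C b)
  have hcx : cc x = Polynomial.X := PowerSeries.constantCoeff_C _
  have hca : cc a' = Polynomial.C a := PowerSeries.constantCoeff_C _
  have hcb : cc b' = Polynomial.C b := PowerSeries.constantCoeff_C _
  have hcz : cc z = 0 := PowerSeries.constantCoeff_X
  have hz : z ≠ 0 := PowerSeries.X_ne_zero
  have hXne : (Polynomial.X : P) ≠ 1 := by
    have h := Polynomial.X_ne_C (1 : R)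
    rwa [Polynomial.C_1] at h
  obtain ⟨w, hw⟩ : ∃ w : A, (1 - z + z * x) * w = 1 := by
    have h : IsUnit (1 - z + z * x) := by
      rw [PowerSeries.isUnit_iff_constantCoeff]
      have : PowerSeries.constantCoeff (1 - z + z * x) = (1 : P) := by
        show cc (1 - z + z * x) = 1
        rw [map_add, map_sub, map_mul, map_one, hcz]
        ring
      rw [this]
      exact isUnit_one
    exact h.exists_right_inv
  let y : A := x * w
  have hker : x - y = z * y * (x - 1) := by
    show x - x * w = z * (x * w) * (x - 1)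
    linear_combination (-x) * hw
  have hcw : cc w = 1 := by
    have := congrArg cc hw
    rw [map_mul, map_add, map_sub, map_mul, map_one, hcz] at this
    simpa using this
  have hcy : cc y = Polynomial.X := by
    show cc (x * w) = _
    rw [map_mul, hcw, hcx, mul_one]
  have hx1 : x ≠ 1 := fun h => hXne (by rw [← hcx, h, map_one])
  have hy1 : y ≠ 1 := fun h => hXne (by rw [← hcy, h, map_one])
  have hy0 : y ≠ 0 := fun h => Polynomial.X_ne_zero (R := R) (by rw [← hcy, h, map_zero])
  have key1 := elim z a' b' (zs fun n => Q A a' b' n 1 1) x y hx1 hy1 hz hy0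
    (fun s t => zs fun n => Q A a' b' n s t) rfl hker
    (zs_FE a' b' (fun n s t => Q A a' b' n s t) (h0 A a' b') (hS A a' b'))
  have key2 := elim z b' a' (zs fun n => Q A b' a' n 1 1) x y hx1 hy1 hz hy0
    (fun s t => zs fun n => Q A b' a' n s t) rfl hker
    (zs_FE b' a' (fun n s t => Q A b' a' n s t) (h0 A b' a') (hS A b' a'))
  -- the difference
  let δ : ℕ → A → A := fun n t => Q A a' b' n 1 t - Q A b' a' n 1 t
  have hδ : ∀ t : A, zs (fun n => δ n t) =
      zs (fun n => Q A a' b' n 1 t) - zs (fun n => Q A b' a' n 1 t) := fun t => zs_sub _ _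
  have key : (1 - z) * zs (fun n => δ n x) = (1 - z - z * b') * (1 - z - z * a') * x *
      zs (fun n => δ n y) + zs (fun n => δ n 1) * x *
        ((1 - z) - (1 - z - z * b') * (1 - z - z * a')) := by
    rw [hδ, hδ, hδ]
    linear_combination key1 - key2
  have main : ∀ n, Q P (Polynomial.C a) (Polynomial.C b) n 1 Polynomial.X =
      Q P (Polynomial.C b) (Polynomial.C a) n 1 Polynomial.X := by
    intro n
    induction n using Nat.strong_induction_on with
    | _ n ih =>
      have hzero : ∀ t : A, ∀ m < n, δ m t = 0 := by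
        intro t m hm
        let φ : P →+* A := Polynomial.eval₂RingHom ((PowerSeries.C).comp Polynomial.C) t
        have h := congrArg φ (ih m hm)
        rw [hN, hN, map_one] at h
        have e1 : φ (Polynomial.C a) = a' := by
          show Polynomial.eval₂ ((PowerSeries.C).comp Polynomial.C) t (Polynomial.C a) = _
          rw [Polynomial.eval₂_C]
          rfl
        have e2 : φ (Polynomial.C b) = b' := by
          show Polynomial.eval₂ ((PowerSeries.C).comp Polynomial.C) t (Polynomial.C b) = _
          rw [Polynomial.eval₂_C]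
          rfl
        have e3 : φ Polynomial.X = t := by
          show Polynomial.eval₂ ((PowerSeries.C).comp Polynomial.C) t Polynomial.X = _
          rw [Polynomial.eval₂_X]
        rw [e1, e2, e3] at h
        show Q A a' b' m 1 t - Q A b' a' m 1 t = 0
        rw [h, sub_self]
      rw [zs_shift n _ (hzero x), zs_shift n _ (hzero y), zs_shift n _ (hzero 1)] at key
      have key' : z ^ n * ((1 - z) * zs (fun k => δ (n + k) x) -
          ((1 - z - z * b') * (1 - z - z * a') * x * zs (fun k => δ (n + k) y) +
            zs (fun k => δ (n + k) 1) * x *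
              ((1 - z) - (1 - z - z * b') * (1 - z - z * a')))) = 0 := by
        linear_combination key
      have key'' := (mul_eq_zero.1 key').resolve_left (pow_ne_zero _ hz)
      have h1 := congrArg cc key''
      have hc : ∀ t : A, cc (zs (fun k => δ (n + k) t)) =
          Q P (Polynomial.C a) (Polynomial.C b) n 1 (cc t) -
            Q P (Polynomial.C b) (Polynomial.C a) n 1 (cc t) := by
        intro t
        have e : cc (zs (fun k => δ (n + k) t)) = cc (δ (n + 0) t) := zs_const _
        rw [e]
        show cc (Q A a' b' n 1 t - Q A b' a' n 1 t) = _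
        rw [map_sub, hN, hN, map_one, hca, hcb]
      simp only [map_sub, map_add, map_mul, map_one, map_zero, hcz, hc, hcx, hcy] at h1
      have h2 : (1 - (Polynomial.X : P)) * (Q P (Polynomial.C a) (Polynomial.C b) n 1 Polynomial.X -
          Q P (Polynomial.C b) (Polynomial.C a) n 1 Polynomial.X) = 0 := by
        linear_combination h1
      rcases mul_eq_zero.1 h2 with h | h
      · exact absurd (sub_eq_zero.1 h).symm hXne
      · exact sub_eq_zero.1 h
  have h := congrArg (Polynomial.eval₂RingHom (RingHom.id R) 1) (main n)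
  rw [hN, hN, map_one] at h
  simpa using h

end Pool.Agent.U747.FS
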