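import Pool.Agent.U747.FS.Words
import Pool.Agent.U747.FS.Alg

set_option autoImplicit false

/-!
# Joint symmetry on Fishburn permutations: insertion of the maximum
-/

namespace Pool.Agent.U747.FS

open Finset

/-- The permutation `π` of `{0, …, n - 1}` avoids the bivincular pattern: there are no `i, j, k` with
`i + 1 = j < k` and `π i + 1 = π k < π j`. -/
def Av {n : ℕ} (π : Equiv.Perm (Fin n)) : Prop :=
  ∀ i j k : Fin n, (i : ℕ) + 1 = j → j < k → (π i : ℕ) + 1 = π k → ¬ π k < π j

/-- `π i` is a left-to-right maximum -/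
def IsLR {n : ℕ} (π : Equiv.Perm (Fin n)) (i : Fin n) : Prop := ∀ m, m < i → π m < π i

/-- `π i` is a right-to-left maximum -/
def IsRL {n : ℕ} (π : Equiv.Perm (Fin n)) (i : Fin n) : Prop := ∀ m, i < m → π m < π i

/-- one may insert a new maximum after `π i` -/
def Act {n : ℕ} (π : Equiv.Perm (Fin n)) (i : Fin n) : Prop := ∀ k, (π k : ℕ) = π i + 1 → k < i

/-- insertion of a new maximum at the place `p` -/
def pext {n : ℕ} (τ : Equiv.Perm (Fin n)) (p : Fin (n + 1)) : Equiv.Perm (Fin (n + 1)) :=
  (finSuccEquiv' p).trans ((Equiv.optionCongr τ).trans (finSuccEquiv' (Fin.last n)).symm)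

lemma pext_at {n : ℕ} (τ : Equiv.Perm (Fin n)) (p : Fin (n + 1)) : pext τ p p = Fin.last n := by
  simp [pext]

lemma pext_sa {n : ℕ} (τ : Equiv.Perm (Fin n)) (p : Fin (n + 1)) (i : Fin n) :
    pext τ p (p.succAbove i) = (τ i).castSucc := by
  simp [pext]

lemma val_sa {n : ℕ} (p : Fin (n + 1)) (i : Fin n) :
    ((p.succAbove i : Fin (n + 1)) : ℕ) = if (i : ℕ) < p then (i : ℕ) else i + 1 := by
  unfold Fin.succAbove
  by_cases h : (i : ℕ) < p
  · rw [if_pos h, if_pos (show i.castSucc < p from h)]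
    rfl
  · rw [if_neg h, if_neg (show ¬ i.castSucc < p from h)]
    rfl

lemma pext_bij (n : ℕ) : Function.Bijective (fun q : Equiv.Perm (Fin n) × Fin (n + 1) => pext q.1 q.2) := by
  rw [Fintype.bijective_iff_injective_and_card]
  constructor
  · rintro ⟨τ, p⟩ ⟨τ', p'⟩ h
    simp only at h
    have hp : p = p' := by
      have h1 : pext τ' p' p = Fin.last n := by rw [← h, pext_at]
      have h2 : pext τ' p' p' = Fin.last n := pext_at τ' p'
      exact (pext τ' p').injective (h1.trans h2.symm)
    subst hp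
    have hτ : τ = τ' := by
      ext i
      have h1 := congrArg (fun σ : Equiv.Perm (Fin (n + 1)) => σ (p.succAbove i)) h
      simp only [pext_sa] at h1
      rw [Fin.castSucc_injective n h1]
    rw [hτ]
  · rw [Fintype.card_prod, Fintype.card_perm, Fintype.card_perm, Fintype.card_fin, Fintype.card_fin,
      Nat.factorial_succ, mul_comm]

lemma av_pext {n : ℕ} (τ : Equiv.Perm (Fin n)) (p : Fin (n + 1)) :
    Av (pext τ p) ↔ Av τ ∧ ∀ i : Fin n, (i : ℕ) + 1 = p → Act τ i := by
  constructor
  · intro hF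
    refine ⟨?_, ?_⟩
    · intro i j k hij hjk hv hlt
      have hjk' : (j : ℕ) < k := hjk
      by_cases hjp : (j : ℕ) = p
      · apply hF (p.succAbove i) p (p.succAbove k)
        · rw [val_sa, if_pos (by omega)]
          omega
        · show (p : ℕ) < (p.succAbove k : Fin (n + 1))
          rw [val_sa, if_neg (by omega)]
          omega
        · rw [pext_sa, pext_sa]
          exact hv
        · rw [pext_sa, pext_at]
          exact Fin.castSucc_lt_last _
      · apply hF (p.succAbove i) (p.succAbove j) (p.succAbove k)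
        · rw [val_sa, val_sa]
          split_ifs <;> omega
        · show ((p.succAbove j : Fin (n + 1)) : ℕ) < (p.succAbove k : Fin (n + 1))
          rw [val_sa, val_sa]
          split_ifs <;> omega
        · rw [pext_sa, pext_sa]
          exact hv
        · rw [pext_sa, pext_sa]
          exact hlt
    · intro i hi k hk
      by_contra hki
      have hki' : ¬ (k : ℕ) < i := hki
      have hne : (k : ℕ) ≠ i := by
        intro h
        have : k = i := Fin.ext h
        rw [this] at hk
        omega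
      apply hF (p.succAbove i) p (p.succAbove k)
      · rw [val_sa, if_pos (by omega)]
        omega
      · show (p : ℕ) < (p.succAbove k : Fin (n + 1))
        rw [val_sa, if_neg (by omega)]
        omega
      · rw [pext_sa, pext_sa]
        exact hk.symm
      · rw [pext_sa, pext_at]
        exact Fin.castSucc_lt_last _
  · rintro ⟨h1, h2⟩ i j k hij hjk hv hlt
    rcases Fin.eq_self_or_eq_succAbove p k with rfl | ⟨k', rfl⟩
    · rw [pext_at] at hlt
      exact absurd hlt (not_lt.2 (Fin.le_last _))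
    rcases Fin.eq_self_or_eq_succAbove p i with rfl | ⟨i', rfl⟩
    · rw [pext_at, pext_sa] at hv
      have := (τ k').isLt
      simp at hv
      omega
    rw [pext_sa, pext_sa] at hv
    have hv' : (τ i' : ℕ) + 1 = τ k' := hv
    rcases Fin.eq_self_or_eq_succAbove p j with rfl | ⟨j', rfl⟩
    · rw [val_sa] at hij
      have hjk' : (j : ℕ) < (j.succAbove k' : Fin (n + 1)) := hjk
      rw [val_sa] at hjk'
      have hi : (i' : ℕ) + 1 = j := by
        split_ifs at hij <;> omega
      have := h2 i' hi k' hv'.symm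
      have : (k' : ℕ) < i' := this
      split_ifs at hjk' <;> omega
    · rw [pext_sa, pext_sa] at hlt
      have hlt' : τ k' < τ j' := hlt
      rw [val_sa, val_sa] at hij
      have hjk' : ((p.succAbove j' : Fin (n + 1)) : ℕ) < (p.succAbove k' : Fin (n + 1)) := hjk
      rw [val_sa, val_sa] at hjk'
      refine h1 i' j' k' ?_ ?_ hv' hlt'
      · split_ifs at hij <;> omega
      · show (j' : ℕ) < k'
        split_ifs at hjk' <;> omega

lemma sa_lt {n : ℕ} (p : Fin (n + 1)) (i j : Fin n) : p.succAbove i < p.succAbove j ↔ i < j :=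
  Fin.succAbove_lt_succAbove_iff

lemma isMax_iff {n : ℕ} (τ : Equiv.Perm (Fin n)) (i : Fin n) :
    (IsLR τ i ∧ IsRL τ i) ↔ (τ i : ℕ) + 1 = n := by
  constructor
  · rintro ⟨h1, h2⟩
    by_contra h
    have h3 : (τ i : ℕ) + 1 < n := by
      have := (τ i).isLt
      omega
    set k := τ.symm ⟨(τ i : ℕ) + 1, h3⟩ with hk
    have h4 : (τ k : ℕ) = τ i + 1 := by
      rw [hk, Equiv.apply_symm_apply]
    rcases lt_trichotomy k i with h5 | h5 | h5
    · have : (τ k : ℕ) < τ i := h1 k h5
      omega
    · rw [h5] at h4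
      omega
    · have : (τ k : ℕ) < τ i := h2 k h5
      omega
  · intro h
    have h1 : ∀ m, m ≠ i → τ m < τ i := by
      intro m hm
      have h2 : (τ m : ℕ) ≠ τ i := fun h3 => hm (τ.injective (Fin.ext h3))
      show (τ m : ℕ) < τ i
      have := (τ m).isLt
      omega
    exact ⟨fun m hm => h1 m hm.ne, fun m hm => h1 m hm.ne'⟩

lemma lr_left {n : ℕ} (τ : Equiv.Perm (Fin n)) (p : Fin (n + 1)) (i : Fin n) (h : (i : ℕ) < p) :
    IsLR (pext τ p) (p.succAbove i) ↔ IsLR τ i := by
  constructor
  · intro h1 m hm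
    have h2 := h1 (p.succAbove m) ((sa_lt p m i).2 hm)
    rw [pext_sa, pext_sa] at h2
    exact h2
  · intro h1 m hm
    rcases Fin.eq_self_or_eq_succAbove p m with rfl | ⟨m', rfl⟩
    · exfalso
      have h2 : (m : ℕ) < (m.succAbove i : Fin (n + 1)) := hm
      rw [val_sa, if_pos h] at h2
      omega
    · rw [pext_sa, pext_sa]
      exact h1 m' ((sa_lt p m' i).1 hm)

lemma rl_left {n : ℕ} (τ : Equiv.Perm (Fin n)) (p : Fin (n + 1)) (i : Fin n) (h : (i : ℕ) < p) :
    ¬ IsRL (pext τ p) (p.succAbove i) := by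
  intro h1
  have h2 := h1 p (by
    show ((p.succAbove i : Fin (n + 1)) : ℕ) < p
    rw [val_sa, if_pos h]
    exact h)
  rw [pext_at] at h2
  exact absurd h2 (not_lt.2 (Fin.le_last _))

lemma lr_right {n : ℕ} (τ : Equiv.Perm (Fin n)) (p : Fin (n + 1)) (i : Fin n) (h : ¬ (i : ℕ) < p) :
    ¬ IsLR (pext τ p) (p.succAbove i) := by
  intro h1
  have h2 := h1 p (by
    show (p : ℕ) < (p.succAbove i : Fin (n + 1))
    rw [val_sa, if_neg h]
    omega)
  rw [pext_at] at h2
  exact absurd h2 (not_lt.2 (Fin.le_last _))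

lemma rl_right {n : ℕ} (τ : Equiv.Perm (Fin n)) (p : Fin (n + 1)) (i : Fin n) (h : ¬ (i : ℕ) < p) :
    IsRL (pext τ p) (p.succAbove i) ↔ IsRL τ i := by
  constructor
  · intro h1 m hm
    have h2 := h1 (p.succAbove m) ((sa_lt p i m).2 hm)
    rw [pext_sa, pext_sa] at h2
    exact h2
  · intro h1 m hm
    rcases Fin.eq_self_or_eq_succAbove p m with rfl | ⟨m', rfl⟩
    · exfalso
      have h2 : ((m.succAbove i : Fin (n + 1)) : ℕ) < m := hm
      rw [val_sa, if_neg h] at h2
      omega
    · rw [pext_sa, pext_sa]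
      exact h1 m' ((sa_lt p i m').1 hm)

lemma act_left {n : ℕ} (τ : Equiv.Perm (Fin n)) (p : Fin (n + 1)) (i : Fin n) (h : (i : ℕ) < p) :
    Act (pext τ p) (p.succAbove i) ↔ Act τ i ∧ ¬ (IsLR τ i ∧ IsRL τ i) := by
  rw [isMax_iff]
  constructor
  · intro h1
    refine ⟨fun k hk => ?_, fun hmax => ?_⟩
    · apply (sa_lt p k i).1
      apply h1
      rw [pext_sa, pext_sa]
      exact hk
    · have h2 := h1 p (by
        rw [pext_at, pext_sa]
        simp
        omega)
      have h3 : (p : ℕ) < (p.succAbove i : Fin (n + 1)) := h2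
      rw [val_sa, if_pos h] at h3
      omega
  · rintro ⟨h1, h2⟩ k hk
    rcases Fin.eq_self_or_eq_succAbove p k with rfl | ⟨k', rfl⟩
    · exfalso
      rw [pext_at, pext_sa] at hk
      simp at hk
      omega
    · rw [pext_sa, pext_sa] at hk
      exact (sa_lt p k' i).2 (h1 k' hk)

lemma act_right {n : ℕ} (τ : Equiv.Perm (Fin n)) (p : Fin (n + 1)) (i : Fin n) (h : ¬ (i : ℕ) < p) :
    Act (pext τ p) (p.succAbove i) ↔ Act τ i := by
  constructor
  · intro h1 k hk
    apply (sa_lt p k i).1
    apply h1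
    rw [pext_sa, pext_sa]
    exact hk
  · intro h1 k hk
    rcases Fin.eq_self_or_eq_succAbove p k with rfl | ⟨k', rfl⟩
    · show (k : ℕ) < (k.succAbove i : Fin (n + 1))
      rw [val_sa, if_neg h]
      omega
    · rw [pext_sa, pext_sa] at hk
      exact (sa_lt p k' i).2 (h1 k' hk)

open Classical in
/-- the letter of `π i` -/
noncomputable def lett {n : ℕ} (π : Equiv.Perm (Fin n)) (i : Fin n) : Lt :=
  (decide (Act π i), decide (IsLR π i), decide (IsRL π i))

/-- the word of a permutation -/
noncomputable def sg {n : ℕ} (π : Equiv.Perm (Fin n)) : List Lt := List.ofFn (lett π)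

lemma lett_left {n : ℕ} (τ : Equiv.Perm (Fin n)) (p : Fin (n + 1)) (i : Fin n) (h : (i : ℕ) < p) :
    lett (pext τ p) (p.succAbove i) = fl (lett τ i) := by
  classical
  unfold lett fl
  simp only [act_left τ p i h, lr_left τ p i h, rl_left τ p i h, decide_false, Bool.decide_and,
    decide_not]

lemma lett_right {n : ℕ} (τ : Equiv.Perm (Fin n)) (p : Fin (n + 1)) (i : Fin n) (h : ¬ (i : ℕ) < p) :
    lett (pext τ p) (p.succAbove i) = gl (lett τ i) := by
  classical
  unfold lett gl
  simp only [act_right τ p i h, lr_right τ p i h, rl_right τ p i h, decide_false]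

lemma lett_at {n : ℕ} (τ : Equiv.Perm (Fin n)) (p : Fin (n + 1)) : lett (pext τ p) p = top := by
  classical
  have h1 : (pext τ p p : ℕ) + 1 = n + 1 := by
    rw [pext_at]
    simp
  have h2 := (isMax_iff (pext τ p) p).2 h1
  have h3 : Act (pext τ p) p := by
    intro k hk
    exfalso
    have := (pext τ p k).isLt
    omega
  unfold lett top
  simp [h2.1, h2.2, h3]

lemma sg_length {n : ℕ} (π : Equiv.Perm (Fin n)) : (sg π).length = n := by
  simp [sg]

lemma sg_get {n : ℕ} (π : Equiv.Perm (Fin n)) (m : ℕ) (h : m < n) : (sg π)[m]? = some (lett π ⟨m, h⟩) := by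
  unfold sg
  rw [List.getElem?_ofFn, dif_pos h]

lemma ins_get (s : List Lt) (p m : ℕ) (hp : p ≤ s.length) : (ins p s)[m]? =
    if m < p then (s[m]?).map fl else if m = p then some top else (s[m - 1]?).map gl := by
  have hl : ((s.take p).map fl).length = p := by
    simp
    omega
  unfold ins
  rw [List.getElem?_append, hl]
  by_cases h : m < p
  · rw [if_pos h, if_pos h, List.getElem?_map, List.getElem?_take_of_lt h]
  · rw [if_neg h, if_neg h]
    by_cases h2 : m = p
    · rw [if_pos h2, h2, Nat.sub_self]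
      rfl
    · rw [if_neg h2]
      obtain ⟨d, hd⟩ : ∃ d, m - p = d + 1 := ⟨m - p - 1, by omega⟩
      rw [hd, List.getElem?_cons_succ, List.getElem?_map, List.getElem?_drop]
      congr 2
      omega

lemma sg_pext {n : ℕ} (τ : Equiv.Perm (Fin n)) (p : Fin (n + 1)) : sg (pext τ p) = ins p (sg τ) := by
  have hp : (p : ℕ) ≤ n := Nat.lt_succ_iff.1 p.isLt
  have hlen : (ins p (sg τ)).length = n + 1 := by
    simp [sg_length, ins]
    omega
  apply List.ext_getElem?
  intro m
  by_cases h1 : m < n + 1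
  · rw [sg_get _ m h1, ins_get _ _ _ (by rw [sg_length]; exact hp)]
    rcases lt_trichotomy m (p : ℕ) with hm | hm | hm
    · have hmn : m < n := by omega
      have e1 : (⟨m, h1⟩ : Fin (n + 1)) = p.succAbove ⟨m, hmn⟩ := by
        apply Fin.ext
        rw [val_sa, if_pos hm]
      rw [if_pos hm, sg_get τ m hmn, e1, lett_left τ p ⟨m, hmn⟩ hm]
      rfl
    · have e1 : (⟨m, h1⟩ : Fin (n + 1)) = p := Fin.ext hm
      rw [if_neg (by omega), if_pos hm, e1, lett_at]
    · have hmn : m - 1 < n := by omega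
      have e1 : (⟨m, h1⟩ : Fin (n + 1)) = p.succAbove ⟨m - 1, hmn⟩ := by
        apply Fin.ext
        rw [val_sa, if_neg (by show ¬ m - 1 < (p : ℕ); omega)]
        show m = m - 1 + 1
        omega
      rw [if_neg (by omega), if_neg (by omega), sg_get τ (m - 1) hmn, e1,
        lett_right τ p ⟨m - 1, hmn⟩ (by show ¬ m - 1 < (p : ℕ); omega)]
      rfl
  · rw [List.getElem?_eq_none (by rw [sg_length]; omega), List.getElem?_eq_none (by rw [hlen]; omega)]

/-- The word of a nonempty permutation. -/
lemma sg_form {n : ℕ} (σ : Equiv.Perm (Fin (n + 1))) : ∃ L R : List Lt, sg σ = L ++ top :: R ∧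
    (∀ s ∈ L, s.2.2 = false) ∧ ∀ s ∈ R, s.2.1 = false := by
  obtain ⟨⟨τ, p⟩, rfl⟩ := (pext_bij n).2 σ
  refine ⟨_, _, sg_pext τ p, ?_, ?_⟩
  · intro s hs
    obtain ⟨t, _, rfl⟩ := List.mem_map.1 hs
    rfl
  · intro s hs
    obtain ⟨t, _, rfl⟩ := List.mem_map.1 hs
    rfl

lemma al_iff {n : ℕ} (τ : Equiv.Perm (Fin n)) (p : Fin (n + 1)) :
    (∀ i : Fin n, (i : ℕ) + 1 = p → Act τ i) ↔ al (sg τ) p = true := by
  classical
  obtain ⟨p, hp⟩ := p
  rcases p with _ | p
  · simp [al_zero]
  · have hpn : p < n := by omega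
    rw [al_succ, List.getD_eq_getElem?_getD, sg_get τ p hpn]
    simp only [Option.getD_some, lett, decide_eq_true_eq]
    constructor
    · intro h
      exact h ⟨p, hpn⟩ rfl
    · intro h i hi
      have : i = ⟨p, hpn⟩ := by
        apply Fin.ext
        show (i : ℕ) = p
        have hi' : (i : ℕ) + 1 = p + 1 := hi
        omega
      rw [this]
      exact h

open Classical in
/-- The recursion. -/
lemma sum_rec {A : Type} [CommRing A] (n : ℕ) (F : List Lt → A) :
    ∑ σ : Equiv.Perm (Fin (n + 1)), (if Av σ then F (sg σ) else 0) =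
      ∑ τ : Equiv.Perm (Fin n), (if Av τ then
        ∑ p ∈ range ((sg τ).length + 1), (if al (sg τ) p then F (ins p (sg τ)) else 0) else 0) := by
  rw [← (Equiv.ofBijective _ (pext_bij n)).sum_comp, Fintype.sum_prod_type]
  apply sum_congr rfl
  intro τ _
  rw [sg_length, Finset.sum_range]
  by_cases h : Av τ
  · rw [if_pos h]
    apply sum_congr rfl
    intro p _
    simp only [Equiv.ofBijective_apply]
    have e : Av (pext τ p) ↔ al (sg τ) p = true := by
      rw [av_pext, ← al_iff]
      exact ⟨fun h1 => h1.2, fun h1 => ⟨h, h1⟩⟩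
    rw [sg_pext]
    by_cases h1 : al (sg τ) p = true
    · rw [if_pos (e.2 h1), if_pos h1]
    · rw [if_neg (fun h2 => h1 (e.1 h2)), if_neg h1]
  · rw [if_neg h]
    apply sum_eq_zero
    intro p _
    simp only [Equiv.ofBijective_apply]
    rw [if_neg]
    rw [av_pext]
    exact fun h1 => h h1.1

open Classical in
/-- the weighted number of permutations of `{0, …, n}` -/
noncomputable def QQ (A : Type) [CommRing A] (a b : A) (n : ℕ) (x y : A) : A :=
  ∑ σ : Equiv.Perm (Fin (n + 1)), (if Av σ then W a b x y (sg σ) else 0)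

lemma QQ_zero (A : Type) [CommRing A] (a b x y : A) : QQ A a b 0 x y = x * y := by
  classical
  unfold QQ
  rw [sum_rec]
  have h1 : ∀ τ : Equiv.Perm (Fin 0), sg τ = [] := by
    intro τ
    rw [← List.length_eq_zero_iff, sg_length]
  have h2 : ∀ τ : Equiv.Perm (Fin 0), Av τ := fun τ i => i.elim0
  simp only [h1, h2, if_true]
  have h3 : ins 0 [] = [] ++ top :: [] := rfl
  have h4 : W a b x y ([] ++ top :: []) = x * y := by
    rw [W_eq _ _ _ _ [] [] (by simp), Xf_nil]
    simp [Yt]
  simp only [List.length_nil, zero_add, range_one, sum_singleton, al_zero, if_true, h3, h4,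
    sum_const, card_univ, Fintype.card_perm, Fintype.card_fin, Nat.factorial_zero, one_smul]

lemma QQ_nat (A B : Type) [CommRing A] [CommRing B] (φ : A →+* B) (a b : A) (n : ℕ) (x y : A) :
    φ (QQ A a b n x y) = QQ B (φ a) (φ b) n (φ x) (φ y) := by
  classical
  unfold QQ
  rw [map_sum]
  apply sum_congr rfl
  intro σ _
  split_ifs
  · exact W_nat φ a b x y _
  · exact map_zero φ

lemma QQ_succ (A : Type) [CommRing A] (a b : A) (n : ℕ) (x y : A) : (x - y) * QQ A a b (n + 1) x y =
    x * y * (QQ A a b n x y - QQ A a b n y y + b * (QQ A a b n x 1 - QQ A a b n y 1)) +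
      y * (QQ A a b n x x - QQ A a b n x y + a * (QQ A a b n 1 x - QQ A a b n 1 y)) := by
  classical
  unfold QQ
  rw [sum_rec]
  simp only [mul_sum, ← sum_sub_distrib, ← sum_add_distrib]
  apply sum_congr rfl
  intro τ _
  by_cases h : Av τ
  · simp only [if_pos h]
    obtain ⟨L, R, h1, h2, h3⟩ := sg_form τ
    rw [h1]
    exact step a b x y L R h2 h3
  · simp only [if_neg h]
    ring

/-- the number of left-to-right maxima -/
noncomputable def lrm {n : ℕ} (π : Equiv.Perm (Fin n)) : ℕ := {i | IsLR π i}.ncard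

/-- the number of right-to-left maxima -/
noncomputable def rlm {n : ℕ} (π : Equiv.Perm (Fin n)) : ℕ := {i | IsRL π i}.ncard

lemma countP_ofFn {n : ℕ} (f : Fin n → Lt) (P : Lt → Bool) :
    (List.ofFn f).countP P = (univ.filter fun i => P (f i) = true).card := by
  induction n with
  | zero => simp
  | succ n ih =>
    rw [List.ofFn_succ, List.countP_cons, ih, Fin.card_filter_univ_succ]
    split_ifs <;> omega

lemma lrm_eq {n : ℕ} (π : Equiv.Perm (Fin n)) : (sg π).countP (fun s => s.2.1) = lrm π := by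
  classical
  unfold sg lrm
  rw [countP_ofFn, Set.ncard_eq_toFinset_card']
  congr 1
  ext i
  simp [lett]

lemma rlm_eq {n : ℕ} (π : Equiv.Perm (Fin n)) : (sg π).countP (fun s => s.2.2) = rlm π := by
  classical
  unfold sg rlm
  rw [countP_ofFn, Set.ncard_eq_toFinset_card']
  congr 1
  ext i
  simp [lett]

open Classical in
/-- the joint distribution as a polynomial -/
lemma gen_symm (R : Type) [CommRing R] [IsDomain R] (u v : R) (n : ℕ) :
    ∑ σ : Equiv.Perm (Fin (n + 1)), (if Av σ then u ^ lrm σ * v ^ rlm σ else 0) =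
      ∑ σ : Equiv.Perm (Fin (n + 1)), (if Av σ then v ^ lrm σ * u ^ rlm σ else 0) := by
  have h1 : ∀ u v : R, ∑ σ : Equiv.Perm (Fin (n + 1)), (if Av σ then u ^ lrm σ * v ^ rlm σ else 0) =
      u * v * QQ R (u - 1) (v - 1) n 1 1 := by
    intro u v
    unfold QQ
    rw [mul_sum]
    apply sum_congr rfl
    intro σ _
    split_ifs with h
    · obtain ⟨L, M, e1, e2, e3⟩ := sg_form σ
      have h2 := W_one (u - 1) (v - 1) L M e2 e3
      rw [← e1, lrm_eq, rlm_eq] at h2
      rw [add_sub_cancel, add_sub_cancel] at h2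
      exact h2.symm
    · rw [mul_zero]
  rw [h1 u v, h1 v u, sym_of_FE QQ QQ_zero QQ_succ QQ_nat R (u - 1) (v - 1) n]
  ring

/-- **Joint symmetry.** -/
theorem joint (n a b : ℕ) :
    {π : Equiv.Perm (Fin n) | Av π ∧ lrm π = a ∧ rlm π = b}.ncard =
      {π : Equiv.Perm (Fin n) | Av π ∧ lrm π = b ∧ rlm π = a}.ncard := by
  classical
  rcases n with _ | n
  · congr 1
    ext π
    have h1 : lrm π = 0 := by
      unfold lrm
      rw [Set.ncard_eq_zero]
      ext i
      exact i.elim0
    have h2 : rlm π = 0 := by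
      unfold rlm
      rw [Set.ncard_eq_zero]
      ext i
      exact i.elim0
    simp only [Set.mem_ofPred_eq, h1, h2]
    tauto
  · have h := gen_symm (MvPolynomial (Fin 2) ℤ) (MvPolynomial.X 0) (MvPolynomial.X 1) n
    have key : ∀ (a b : ℕ) (f g : Equiv.Perm (Fin (n + 1)) → ℕ),
        MvPolynomial.coeff (Finsupp.single 0 a + Finsupp.single 1 b)
          (∑ σ : Equiv.Perm (Fin (n + 1)), (if Av σ then
            (MvPolynomial.X 0 : MvPolynomial (Fin 2) ℤ) ^ f σ * MvPolynomial.X 1 ^ g σ else 0)) =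
          ({π : Equiv.Perm (Fin (n + 1)) | Av π ∧ f π = a ∧ g π = b}.ncard : ℤ) := by
      intro a b f g
      rw [MvPolynomial.coeff_sum, Set.ncard_eq_toFinset_card', Finset.card_eq_sum_ones, Nat.cast_sum,
        Set.toFinset_ofPred, Finset.sum_filter]
      apply sum_congr rfl
      intro σ _
      by_cases hσ : Av σ
      · rw [if_pos hσ]
        have e1 : (MvPolynomial.X 0 : MvPolynomial (Fin 2) ℤ) ^ f σ * MvPolynomial.X 1 ^ g σ =
            MvPolynomial.monomial (Finsupp.single 0 (f σ) + Finsupp.single 1 (g σ)) 1 := by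
          rw [MvPolynomial.X_pow_eq_monomial, MvPolynomial.X_pow_eq_monomial, MvPolynomial.monomial_mul,
            mul_one]
        rw [e1, MvPolynomial.coeff_monomial]
        have e2 : (Finsupp.single (0 : Fin 2) (f σ) + Finsupp.single 1 (g σ) =
            Finsupp.single 0 a + Finsupp.single 1 b) ↔ (f σ = a ∧ g σ = b) := by
          constructor
          · intro h
            have h1 := DFunLike.congr_fun h 0
            have h2 := DFunLike.congr_fun h 1
            simp at h1 h2
            exact ⟨h1, h2⟩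
          · rintro ⟨rfl, rfl⟩
            rfl
        simp only [e2, hσ, true_and]
        split_ifs <;> simp
      · simp [hσ]
    have h1 := congrArg (MvPolynomial.coeff (Finsupp.single 0 a + Finsupp.single 1 b)) h
    rw [key a b lrm rlm] at h1
    have h2 : ∑ σ : Equiv.Perm (Fin (n + 1)), (if Av σ then
        (MvPolynomial.X 1 : MvPolynomial (Fin 2) ℤ) ^ lrm σ * MvPolynomial.X 0 ^ rlm σ else 0) =
        ∑ σ : Equiv.Perm (Fin (n + 1)), (if Av σ then
          (MvPolynomial.X 0 : MvPolynomial (Fin 2) ℤ) ^ rlm σ * MvPolynomial.X 1 ^ lrm σ else 0) := by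
      apply sum_congr rfl
      intro σ _
      rw [mul_comm]
    rw [h2, key a b rlm lrm] at h1
    have h3 : {π : Equiv.Perm (Fin (n + 1)) | Av π ∧ rlm π = a ∧ lrm π = b} =
        {π : Equiv.Perm (Fin (n + 1)) | Av π ∧ lrm π = b ∧ rlm π = a} := by
      ext π
      simp only [Set.mem_ofPred_eq]
      tauto
    rw [h3] at h1
    exact_mod_cast h1

end Pool.Agent.U747.FS
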