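import Mathlib

set_option autoImplicit false

/-!
# Joint symmetry on Fishburn permutations: words

A letter is `(active, left-to-right maximum, right-to-left maximum)`.
-/

namespace Pool.Agent.U747.FS

open Finset

/-- a letter: active, left-to-right maximum, right-to-left maximum -/
abbrev Lt := Bool × Bool × Bool

/-- the letter of the maximum -/
def top : Lt := (true, true, true)

/-- whether one may insert at the place `p` of a word -/
def al (L : List Lt) : ℕ → Bool
  | 0 => true
  | p + 1 => (L.getD p (false, false, false)).1

lemma al_zero (L : List Lt) : al L 0 = true := rfl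

lemma al_succ (L : List Lt) (p : ℕ) : al L (p + 1) = (L.getD p (false, false, false)).1 := rfl

/-- number of active letters -/
def ct (L : List Lt) : ℕ := L.countP fun s => s.1

/-- the change of a letter to the left of the new maximum -/
def fl (s : Lt) : Lt := (s.1 && !(s.2.1 && s.2.2), s.2.1, false)

/-- the change of a letter to the right of the new maximum -/
def gl (s : Lt) : Lt := (s.1, false, s.2.2)

/-- insertion of a new maximum -/
def ins (p : ℕ) (s : List Lt) : List Lt := (s.take p).map fl ++ top :: (s.drop p).map gl

section

variable {A : Type} [CommRing A]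

/-- one step of the left weight -/
def xs (a : A) (acc : A → A) (s : Lt) : A → A :=
  fun x => (if s.1 then x else 1) * (acc x + if s.2.1 then a * acc 1 else 0)

/-- the weight of the letters left of the maximum -/
def Xf (a : A) (L : List Lt) : A → A := L.foldl (xs a) id

/-- the weight of the letters right of the maximum -/
def Yt (b : A) : List Lt → A → A
  | [] => fun _ => 1
  | s :: t => fun y => (if s.1 then y else 1) * Yt b t y + if s.2.2 then b * Yt b t 1 else 0

lemma Xf_nil (a x : A) : Xf a [] x = x := rfl

lemma Xf_concat (a x : A) (L : List Lt) (s : Lt) : Xf a (L ++ [s]) x =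
    (if s.1 then x else 1) * (Xf a L x + if s.2.1 then a * Xf a L 1 else 0) := by
  unfold Xf
  rw [List.foldl_append]
  rfl

lemma Xf_plain (a x : A) (L M : List Lt) (h : ∀ s ∈ M, s.2.1 = false) :
    Xf a (L ++ M) x = x ^ ct M * Xf a L x := by
  induction M using List.reverseRecOn with
  | nil => simp [ct]
  | append_singleton M s ih =>
    rw [← List.append_assoc, Xf_concat, ih (fun t ht => h t (by simp [ht]))]
    have h1 : s.2.1 = false := h s (by simp)
    rw [h1]
    simp only [Bool.false_eq_true, if_false, add_zero, ct, List.countP_append, List.countP_singleton]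
    split_ifs
    · ring
    · ring

lemma Yt_cons (b y : A) (s : Lt) (t : List Lt) : Yt b (s :: t) y =
    (if s.1 then y else 1) * Yt b t y + if s.2.2 then b * Yt b t 1 else 0 := rfl

lemma Yt_plain (b y : A) (L M : List Lt) (h : ∀ s ∈ M, s.2.2 = false) :
    Yt b (M ++ L) y = y ^ ct M * Yt b L y := by
  induction M with
  | nil => simp [ct]
  | cons s M ih =>
    rw [List.cons_append, Yt_cons, ih (fun t ht => h t (by simp [ht]))]
    have h1 : s.2.2 = false := h s (by simp)
    rw [h1]
    simp only [Bool.false_eq_true, if_false, add_zero, ct, List.countP_cons]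
    split_ifs
    · ring
    · ring

lemma al_append (L M : List Lt) (p : ℕ) (h : p ≤ L.length) : al (L ++ M) p = al L p := by
  rcases p with _ | p
  · rfl
  · rw [al_succ, al_succ, List.getD_append _ _ _ _ (by omega)]

lemma sumL (a x y : A) (L : List Lt) :
    (x - y) * ∑ p ∈ range (L.length + 1), (if al L p then Xf a (L.take p) x * y ^ ct (L.drop p) else 0) =
      x * (Xf a L x - Xf a L y) := by
  induction L using List.reverseRecOn with
  | nil =>
    simp [al, Xf_nil, ct]
    ring
  | append_singleton L s ih =>
    rw [List.length_append, List.length_singleton, sum_range_succ]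
    have h1 : ∑ p ∈ range (L.length + 1), (if al (L ++ [s]) p then
        Xf a ((L ++ [s]).take p) x * y ^ ct ((L ++ [s]).drop p) else 0) =
        (if s.1 then y else 1) * ∑ p ∈ range (L.length + 1),
          (if al L p then Xf a (L.take p) x * y ^ ct (L.drop p) else 0) := by
      rw [mul_sum]
      apply sum_congr rfl
      intro p hp
      have hp' : p ≤ L.length := by
        have := mem_range.1 hp
        omega
      rw [al_append L [s] p hp', List.take_append_of_le_length hp', List.drop_append_of_le_length hp']
      simp only [ct, List.countP_append, List.countP_singleton]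
      split_ifs
      · ring
      · ring
      · ring
      · ring
    have h2 : al (L ++ [s]) (L.length + 1) = s.1 := by
      rw [al_succ, List.getD_append_right _ _ _ _ le_rfl]
      simp
    have h3 : (L ++ [s]).take (L.length + 1) = L ++ [s] := by
      apply List.take_of_length_le
      simp
    have h4 : (L ++ [s]).drop (L.length + 1) = [] := by
      apply List.drop_of_length_le
      simp
    rw [h1, h2, h3, h4, mul_add]
    have h5 : (x - y) * ((if s.1 then y else 1) * ∑ p ∈ range (L.length + 1),
        (if al L p then Xf a (L.take p) x * y ^ ct (L.drop p) else 0)) =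
        (if s.1 then y else 1) * (x * (Xf a L x - Xf a L y)) := by
      rw [← ih]
      ring
    rw [h5]
    simp only [Xf_concat, ct, List.countP_nil, pow_zero, mul_one]
    split_ifs
    · ring
    · ring
    · ring
    · ring

lemma al_cons (s : Lt) (R : List Lt) (p : ℕ) : al (s :: R) (p + 1) = if p = 0 then s.1 else al R p := by
  rcases p with _ | p
  · simp [al]
  · simp [al]

lemma sumR (b x y : A) (R : List Lt) :
    (x - y) * ∑ q ∈ range (R.length + 1), (if al R q then x ^ ct (R.take q) * (y * Yt b (R.drop q) y) else 0) =
      y * (x * Yt b R x - y * Yt b R y) := by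
  induction R with
  | nil =>
    simp [al, Yt, ct]
    ring
  | cons s R ih =>
    rw [List.length_cons, sum_range_succ']
    have h1 : ∑ q ∈ range (R.length + 1), (if al (s :: R) (q + 1) then
        x ^ ct ((s :: R).take (q + 1)) * (y * Yt b ((s :: R).drop (q + 1)) y) else 0) =
        (if s.1 then x else 1) * (∑ q ∈ range (R.length + 1),
          (if al R q then x ^ ct (R.take q) * (y * Yt b (R.drop q) y) else 0)) -
          (if s.1 then 0 else y * Yt b R y) := by
      rw [sum_range_succ', sum_range_succ' (fun q => if al R q then x ^ ct (R.take q) * (y * Yt b (R.drop q) y) else 0)]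
      have h2 : ∀ q, (if al (s :: R) (q + 1 + 1) then
          x ^ ct ((s :: R).take (q + 1 + 1)) * (y * Yt b ((s :: R).drop (q + 1 + 1)) y) else 0) =
          (if s.1 then x else 1) * (if al R (q + 1) then
            x ^ ct (R.take (q + 1)) * (y * Yt b (R.drop (q + 1)) y) else 0) := by
        intro q
        rw [al_cons, if_neg (Nat.succ_ne_zero q), List.take_succ_cons, List.drop_succ_cons]
        simp only [ct, List.countP_cons]
        split_ifs
        · ring
        · ring
        · ring
        · ring
      simp only [h2, ← mul_sum]
      rw [al_cons, if_pos rfl]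
      simp only [List.take_succ_cons, List.take_zero, List.drop_succ_cons, List.drop_zero, al_zero, if_true, ct,
        List.countP_nil, List.countP_cons, pow_zero, one_mul]
      split_ifs
      · simp
        ring
      · simp
    rw [h1]
    have h6 : (if al (s :: R) 0 = true then x ^ ct ((s :: R).take 0) * (y * Yt b ((s :: R).drop 0) y) else 0) =
        y * Yt b (s :: R) y := by
      simp [al_zero, ct]
    rw [h6, mul_add, mul_sub]
    have h5 : (x - y) * ((if s.1 then x else 1) * ∑ q ∈ range (R.length + 1),
        (if al R q then x ^ ct (R.take q) * (y * Yt b (R.drop q) y) else 0)) =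
        (if s.1 then x else 1) * (y * (x * Yt b R x - y * Yt b R y)) := by
      rw [← ih]
      ring
    rw [h5]
    simp only [Yt_cons]
    split_ifs
    · ring
    · ring
    · ring
    · ring

/-- not the maximum -/
def nt (s : Lt) : Bool := !(s.2.1 && s.2.2)

/-- the weight of a word -/
def W (a b x y : A) (s : List Lt) : A :=
  Xf a (s.takeWhile nt) x * (y * Yt b (s.dropWhile nt).tail y)

lemma W_eq (a b x y : A) (L R : List Lt) (hL : ∀ s ∈ L, nt s = true) :
    W a b x y (L ++ top :: R) = Xf a L x * (y * Yt b R y) := by
  unfold W
  rw [List.takeWhile_append_of_pos hL, List.dropWhile_append_of_pos hL]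
  have h1 : (top :: R).takeWhile nt = [] := by
    rw [List.takeWhile_cons_of_neg]
    simp [nt, top]
  have h2 : (top :: R).dropWhile nt = top :: R := by
    rw [List.dropWhile_cons_of_neg]
    simp [nt, top]
  rw [h1, h2, List.append_nil, List.tail_cons]

lemma W_ins (a b x y : A) (p : ℕ) (s : List Lt) :
    W a b x y (ins p s) = Xf a ((s.take p).map fl) x * (y * Yt b ((s.drop p).map gl) y) := by
  unfold ins
  rw [W_eq]
  intro t ht
  obtain ⟨u, _, rfl⟩ := List.mem_map.1 ht
  simp [nt, fl]

lemma map_fl_id (L : List Lt) (h : ∀ s ∈ L, s.2.2 = false) : L.map fl = L := by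
  rw [List.map_congr_left (g := id), List.map_id]
  rintro ⟨c, l, r⟩ hs
  have := h _ hs
  simp only at this
  subst this
  simp [fl]

lemma map_gl_id (L : List Lt) (h : ∀ s ∈ L, s.2.1 = false) : L.map gl = L := by
  rw [List.map_congr_left (g := id), List.map_id]
  rintro ⟨c, l, r⟩ hs
  have := h _ hs
  simp only at this
  subst this
  simp [gl]

lemma ct_map_gl (L : List Lt) : ct (L.map gl) = ct L := by
  unfold ct
  rw [List.countP_map]
  rfl

lemma ct_map_fl (L : List Lt) (h : ∀ s ∈ L, s.2.1 = false) : ct (L.map fl) = ct L := by
  unfold ct
  rw [List.countP_map]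
  apply List.countP_congr
  rintro ⟨c, l, r⟩ hs
  have := h _ hs
  simp only at this
  subst this
  simp [fl]

/-- **The step.** -/
theorem step (a b x y : A) (L R : List Lt) (hL : ∀ s ∈ L, s.2.2 = false) (hR : ∀ s ∈ R, s.2.1 = false) :
    (x - y) * ∑ p ∈ range ((L ++ top :: R).length + 1),
      (if al (L ++ top :: R) p then W a b x y (ins p (L ++ top :: R)) else 0) =
      x * y * (W a b x y (L ++ top :: R) - W a b y y (L ++ top :: R) +
        b * (W a b x 1 (L ++ top :: R) - W a b y 1 (L ++ top :: R))) +
      y * (W a b x x (L ++ top :: R) - W a b x y (L ++ top :: R) +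
        a * (W a b 1 x (L ++ top :: R) - W a b 1 y (L ++ top :: R))) := by
  have hn : ∀ s ∈ L, nt s = true := by
    intro s hs
    simp [nt, hL s hs]
  have hlen : (L ++ top :: R).length + 1 = (L.length + 1) + (R.length + 1) := by
    simp
    omega
  rw [hlen, Finset.sum_range_add]
  have h1 : ∑ p ∈ range (L.length + 1),
      (if al (L ++ top :: R) p then W a b x y (ins p (L ++ top :: R)) else 0) =
      (y * (y * Yt b R y + b * Yt b R 1)) *
        ∑ p ∈ range (L.length + 1), (if al L p then Xf a (L.take p) x * y ^ ct (L.drop p) else 0) := by
    rw [mul_sum]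
    apply sum_congr rfl
    intro p hp
    have hp' : p ≤ L.length := by
      have := mem_range.1 hp
      omega
    rw [al_append L _ p hp', W_ins, List.take_append_of_le_length hp',
      List.drop_append_of_le_length hp', map_fl_id _ (fun s hs => hL s (List.mem_of_mem_take hs)),
      List.map_append, Yt_plain, ct_map_gl, List.map_cons, map_gl_id R hR, Yt_cons]
    · have e1 : (gl top).1 = true := rfl
      have e2 : (gl top).2.2 = true := rfl
      rw [e1, e2]
      simp only [if_true]
      split_ifs
      · ring
      · ring
    · intro s hs
      obtain ⟨t, ht, rfl⟩ := List.mem_map.1 hs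
      exact hL t (List.mem_of_mem_drop ht)
  have h2 : ∑ q ∈ range (R.length + 1),
      (if al (L ++ top :: R) (L.length + 1 + q) then
        W a b x y (ins (L.length + 1 + q) (L ++ top :: R)) else 0) =
      (Xf a L x + a * Xf a L 1) *
        ∑ q ∈ range (R.length + 1), (if al R q then x ^ ct (R.take q) * (y * Yt b (R.drop q) y) else 0) := by
    rw [mul_sum]
    apply sum_congr rfl
    intro q hq
    have e0 : al (L ++ top :: R) (L.length + 1 + q) = al R q := by
      have : L.length + 1 + q = (L.length + q) + 1 := by omega
      rw [this, al_succ, List.getD_append_right _ _ _ _ (by omega)]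
      have : L.length + q - L.length = q := by omega
      rw [this]
      rcases q with _ | q
      · simp [al_zero, top]
      · simp [al_succ]
    have e1 : (L ++ top :: R).take (L.length + 1 + q) = L ++ top :: R.take q := by
      rw [show L.length + 1 + q = L.length + (q + 1) by omega, List.take_length_add_append,
        List.take_succ_cons]
    have e2 : (L ++ top :: R).drop (L.length + 1 + q) = R.drop q := by
      rw [show L.length + 1 + q = L.length + (q + 1) by omega, List.drop_length_add_append,
        List.drop_succ_cons]
    rw [e0, W_ins, e1, e2, List.map_append, List.map_cons, map_fl_id L hL,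
      map_gl_id _ (fun s hs => hR s (List.mem_of_mem_drop hs))]
    have e3 : Xf a (L ++ fl top :: (R.take q).map fl) x =
        x ^ ct (R.take q) * (Xf a L x + a * Xf a L 1) := by
      rw [show L ++ fl top :: (R.take q).map fl = (L ++ [fl top]) ++ (R.take q).map fl by simp,
        Xf_plain, Xf_concat, ct_map_fl _ (fun s hs => hR s (List.mem_of_mem_take hs))]
      · have e1 : (fl top).1 = false := rfl
        have e2 : (fl top).2.1 = true := rfl
        rw [e1, e2]
        simp
      · intro s hs
        obtain ⟨t, ht, rfl⟩ := List.mem_map.1 hs
        exact hR t (List.mem_of_mem_take ht)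
    rw [e3]
    split_ifs
    · ring
    · ring
  rw [h1, h2]
  simp only [W_eq _ _ _ _ _ _ hn]
  have k1 := sumL a x y L
  have k2 := sumR b x y R
  linear_combination (y * (y * Yt b R y + b * Yt b R 1)) * k1 + (Xf a L x + a * Xf a L 1) * k2

end

section nat

variable {A B : Type} [CommRing A] [CommRing B] (φ : A →+* B)

lemma Xf_nat (a x : A) (L : List Lt) : φ (Xf a L x) = Xf (φ a) L (φ x) := by
  induction L using List.reverseRecOn generalizing x with
  | nil => rfl
  | append_singleton L s ih =>
    rw [Xf_concat, Xf_concat, map_mul, map_add, ih]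
    congr 1
    · split_ifs <;> simp
    · congr 1
      split_ifs
      · rw [map_mul, ih, map_one]
      · simp

lemma Yt_nat (b y : A) (L : List Lt) : φ (Yt b L y) = Yt (φ b) L (φ y) := by
  induction L generalizing y with
  | nil => exact map_one φ
  | cons s L ih =>
    rw [Yt_cons, Yt_cons, map_add, map_mul, ih]
    congr 1
    · congr 1
      split_ifs <;> simp
    · split_ifs
      · rw [map_mul, ih, map_one]
      · simp

lemma W_nat (a b x y : A) (s : List Lt) : φ (W a b x y s) = W (φ a) (φ b) (φ x) (φ y) s := by
  unfold W
  rw [map_mul, map_mul, Xf_nat, Yt_nat]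

end nat

section one

variable {A : Type} [CommRing A]

lemma Xf_one (a : A) (L : List Lt) : Xf a L 1 = (1 + a) ^ L.countP (fun s => s.2.1) := by
  induction L using List.reverseRecOn with
  | nil => simp [Xf_nil]
  | append_singleton L s ih =>
    rw [Xf_concat, ih]
    simp only [List.countP_append, List.countP_singleton]
    split_ifs
    · ring
    · ring
    · ring
    · ring

lemma Yt_one (b : A) (L : List Lt) : Yt b L 1 = (1 + b) ^ L.countP (fun s => s.2.2) := by
  induction L with
  | nil => simp [Yt]
  | cons s L ih =>
    rw [Yt_cons, ih]
    simp only [List.countP_cons]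
    split_ifs
    · ring
    · ring
    · ring
    · ring

lemma W_one (a b : A) (L R : List Lt) (hL : ∀ s ∈ L, s.2.2 = false) (hR : ∀ s ∈ R, s.2.1 = false) :
    (1 + a) * (1 + b) * W a b 1 1 (L ++ top :: R) =
      (1 + a) ^ (L ++ top :: R).countP (fun s => s.2.1) *
        (1 + b) ^ (L ++ top :: R).countP (fun s => s.2.2) := by
  have hn : ∀ s ∈ L, nt s = true := by
    intro s hs
    simp [nt, hL s hs]
  have h1 : L.countP (fun s => s.2.2) = 0 := by
    rw [List.countP_eq_zero]
    intro s hs
    simp [hL s hs]
  have h2 : R.countP (fun s => s.2.1) = 0 := by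
    rw [List.countP_eq_zero]
    intro s hs
    simp [hR s hs]
  rw [W_eq _ _ _ _ _ _ hn, Xf_one, Yt_one, List.countP_append, List.countP_append, List.countP_cons,
    List.countP_cons, h1, h2]
  simp only [top, if_true]
  ring

end one

end Pool.Agent.U747.FS
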